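import Pool.Agent.Lib.MP_fa837f_gt.P2.Iface

/-!
Project P2, module LM: the limit `η → 0`, log-concavity of the integrals `GG` for `1 < α ≤ 5/4`.
-/

set_option autoImplicit false

open MeasureTheory Matrix Set Filter Topology

namespace Pool.Agent.Lib.MP_fa837f_gt.P2.H44

variable {n k : ℕ}

theorem tendsto_F0 (m : Fin n → Fin k → ℝ) (δ : ℝ) (h0 : 0 < δ) (hint : Intg m (1 + δ))
    (w : Fin n → ℝ) :
    Tendsto (fun N : ℕ => F0 m (fun i => (1 + δ) * Real.exp ((1 + δ) * w i))
      (fun i => (1 / ((N : ℝ) + 1)) * Real.exp (-(w i))) δ) atTop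
      (𝓝 (GG m (1 + δ) (fun i => Real.exp ((1 + δ) * w i)))) := by
  unfold F0 GG
  have h1 : (0 : ℝ) < 1 + δ := by linarith
  have hc : ∀ i, (1 + δ) * Real.exp ((1 + δ) * w i) / (1 + δ) = Real.exp ((1 + δ) * w i) := by
    intro i; field_simp
  simp only [hc]
  apply tendsto_integral_of_dominated_convergence (fun y : Fin k → ℝ =>
    Real.exp (-(∑ i, Real.exp ((1 + δ) * w i) * ((m i ⬝ᵥ y) ^ 2) ^ (1 + δ))))
  · intro N
    apply Continuous.aestronglyMeasurable
    have hd : ∀ i, Continuous fun x : Fin k → ℝ =>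
        ((m i ⬝ᵥ x) ^ 2 + 1 / ((N : ℝ) + 1) * Real.exp (-(w i))) ^ (1 + δ) := by
      intro i
      apply Continuous.rpow_const
      · have : Continuous fun x : Fin k → ℝ => m i ⬝ᵥ x := by
          unfold dotProduct; fun_prop
        exact (this.pow 2).add continuous_const
      · intro x; right; exact h1.le
    exact Real.continuous_exp.comp
      (continuous_finsetSum _ fun i _ => continuous_const.mul (hd i)).neg
  · exact hint _ fun i => Real.exp_pos _
  · intro N
    filter_upwards with y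
    rw [Real.norm_eq_abs, Real.abs_exp]
    apply Real.exp_le_exp.2
    apply neg_le_neg
    apply Finset.sum_le_sum
    intro i _
    apply mul_le_mul_of_nonneg_left _ (Real.exp_pos _).le
    apply Real.rpow_le_rpow (by positivity) _ h1.le
    have : 0 ≤ 1 / ((N : ℝ) + 1) * Real.exp (-(w i)) := by positivity
    linarith
  · filter_upwards with y
    apply (Real.continuous_exp.tendsto _).comp
    apply Tendsto.neg
    apply tendsto_finsetSum
    intro i _
    apply Tendsto.const_mul
    have h2 : Tendsto (fun N : ℕ => (m i ⬝ᵥ y) ^ 2 + 1 / ((N : ℝ) + 1) * Real.exp (-(w i))) atTop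
        (𝓝 ((m i ⬝ᵥ y) ^ 2)) := by
      have := (tendsto_one_div_add_atTop_nhds_zero_nat (𝕜 := ℝ)).mul_const (Real.exp (-(w i)))
      have h3 := this.const_add ((m i ⬝ᵥ y) ^ 2)
      simpa using h3
    exact h2.rpow_const (Or.inr h1.le)

theorem lm_st (hDc : DcStatement) : LmStatement := by
  intro n k a α hα1 hα2 hspan hint
  obtain ⟨δ, rfl⟩ : ∃ δ, α = 1 + δ := ⟨α - 1, by ring⟩
  have h0 : 0 < δ := by linarith
  have h4 : δ ≤ 1 / 4 := by linarith
  have h1 : (0 : ℝ) < 1 + δ := by linarith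
  have hpos : ∀ s : Fin n → ℝ, 0 < GG a (1 + δ) (fun i => Real.exp (s i)) := fun s =>
    GG_pos hint fun i => Real.exp_pos _
  refine ⟨convex_univ, ?_⟩
  intro s _ s' _ p q hp hq hpq
  set w : Fin n → ℝ := fun i => s i / (1 + δ) with hw
  set τ : Fin n → ℝ := fun i => s' i / (1 + δ) - s i / (1 + δ) with hτ
  have hlim : ∀ u : ℝ, Tendsto (fun N : ℕ =>
      Real.log (F0 a (fun i => (1 + δ) * Real.exp ((1 + δ) * (w i + u * τ i)))
        (fun i => (1 / ((N : ℝ) + 1)) * Real.exp (-(w i + u * τ i))) δ)) atTop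
      (𝓝 (Real.log (GG a (1 + δ) (fun i => Real.exp ((1 + δ) * (w i + u * τ i)))))) := by
    intro u
    exact (tendsto_F0 a δ h0 hint (fun i => w i + u * τ i)).log
      (hpos (fun i => (1 + δ) * (w i + u * τ i))).ne'
  have e0 : (fun i => Real.exp ((1 + δ) * (w i + 0 * τ i))) = fun i => Real.exp (s i) := by
    funext i; congr 1; simp only [hw]; field_simp; ring
  have e1 : (fun i => Real.exp ((1 + δ) * (w i + 1 * τ i))) = fun i => Real.exp (s' i) := by
    funext i; congr 1; simp only [hw, hτ]; field_simp; ring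
  have eq1 : (fun i => Real.exp ((1 + δ) * (w i + q * τ i))) =
      fun i => Real.exp ((p • s + q • s') i) := by
    funext i
    congr 1
    simp only [hw, hτ, Pi.add_apply, Pi.smul_apply, smul_eq_mul]
    have : p = 1 - q := by linarith
    rw [this]
    field_simp
    ring
  have l0 := hlim 0
  have l1 := hlim 1
  have lq := hlim q
  rw [e0] at l0
  rw [e1] at l1
  rw [eq1] at lq
  simp only [smul_eq_mul]
  refine le_of_tendsto_of_tendsto' ((l0.const_mul p).add (l1.const_mul q)) lq ?_
  intro N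
  obtain ⟨-, hc⟩ := hDc n k a hspan δ h0 h4 (1 / ((N : ℝ) + 1)) (by positivity) w τ
  have h := hc.2 (mem_univ (0 : ℝ)) (mem_univ (1 : ℝ)) hp hq hpq
  simp only [smul_eq_mul, mul_zero, mul_one, zero_add] at h
  exact h

end Pool.Agent.Lib.MP_fa837f_gt.P2.H44
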